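import Mathlib

set_option autoImplicit false

namespace Pool.Agent.Lib.MP_bcad5b_nt

open Finset

/-- Sum of the prime power components of `m`. -/
def S (m : ℕ) : ℕ := ∑ p ∈ m.primeFactors, p ^ m.factorization p

lemma S_one : S 1 = 0 := by simp [S]

lemma S_mul {a b : ℕ} (h : Nat.Coprime a b) : S (a * b) = S a + S b := by
  unfold S
  rw [h.primeFactors_mul, Finset.sum_union h.disjoint_primeFactors]
  congr 1
  · apply Finset.sum_congr rfl
    intro p hp
    rw [Nat.factorization_eq_of_coprime_left h (Nat.mem_primeFactors_iff_mem_primeFactorsList.mp hp)]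
  · apply Finset.sum_congr rfl
    intro p hp
    rw [Nat.factorization_eq_of_coprime_right h
      (Nat.mem_primeFactors_iff_mem_primeFactorsList.mp hp)]

lemma S_prime_pow {p a : ℕ} (hp : p.Prime) (ha : a ≠ 0) : S (p ^ a) = p ^ a := by
  unfold S
  rw [Nat.primeFactors_prime_pow ha hp]
  simp [hp.factorization_self, Nat.factorization_pow]

lemma sum_le_prod (s : Finset ℕ) (f : ℕ → ℕ) (hf : ∀ p ∈ s, 2 ≤ f p) :
    ∑ p ∈ s, f p ≤ ∏ p ∈ s, f p := by
  classical
  induction s using Finset.induction_on with
  | empty => simp
  | insert a s ha ih =>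
    rw [Finset.sum_insert ha, Finset.prod_insert ha]
    have ih' := ih (fun p hp => hf p (Finset.mem_insert_of_mem hp))
    have h1 : 2 ≤ f a := hf a (Finset.mem_insert_self a s)
    rcases Finset.eq_empty_or_nonempty s with hs | hs
    · subst hs; simp
    · obtain ⟨b, hb⟩ := hs
      have h2 : 2 ≤ ∏ p ∈ s, f p := by
        calc 2 ≤ f b := hf b (Finset.mem_insert_of_mem hb)
          _ ≤ ∏ p ∈ s, f p := by
            apply Nat.le_of_dvd
            · apply Finset.prod_pos
              intro i hi
              have := hf i (Finset.mem_insert_of_mem hi)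
              omega
            · exact Finset.dvd_prod_of_mem f hb
      nlinarith

lemma S_le {m : ℕ} (hm : m ≠ 0) : S m ≤ m := by
  have h := sum_le_prod m.primeFactors (fun p => p ^ m.factorization p) (by
    intro p hp
    have hp' := Nat.prime_of_mem_primeFactors hp
    have h1 : m.factorization p ≠ 0 := by
      have := hp'.factorization_pos_of_dvd hm (Nat.dvd_of_mem_primeFactors hp)
      omega
    calc 2 ≤ p := hp'.two_le
      _ ≤ p ^ m.factorization p := Nat.le_self_pow h1 p)
  have h2 := Nat.prod_factorization_pow_eq_self hm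
  rw [Finsupp.prod, Nat.support_factorization] at h2
  rw [h2] at h
  exact h

lemma S_lcm {a b : ℕ} (ha : a ≠ 0) (hb : b ≠ 0) : S (Nat.lcm a b) ≤ S a + S b := by
  unfold S
  have hl : Nat.lcm a b ≠ 0 := Nat.lcm_ne_zero ha hb
  have hpf : (Nat.lcm a b).primeFactors = a.primeFactors ∪ b.primeFactors := by
    ext p
    simp only [Nat.mem_primeFactors, Finset.mem_union]
    constructor
    · rintro ⟨hp, hd, _⟩
      have : p ∣ a * b := hd.trans (Nat.lcm_dvd_mul a b)
      rcases (hp.dvd_mul).mp this with h | h
      · exact Or.inl ⟨hp, h, ha⟩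
      · exact Or.inr ⟨hp, h, hb⟩
    · rintro (⟨hp, hd, _⟩ | ⟨hp, hd, _⟩)
      · exact ⟨hp, hd.trans (Nat.dvd_lcm_left a b), hl⟩
      · exact ⟨hp, hd.trans (Nat.dvd_lcm_right a b), hl⟩
  rw [hpf, Nat.factorization_lcm ha hb]
  have key : ∀ p ∈ a.primeFactors ∪ b.primeFactors,
      p ^ (a.factorization ⊔ b.factorization) p ≤
        (if p ∈ a.primeFactors then p ^ a.factorization p else 0) +
        (if p ∈ b.primeFactors then p ^ b.factorization p else 0) := by
    intro p hp
    rw [Finsupp.sup_apply]
    rcases le_total (a.factorization p) (b.factorization p) with h | h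
    · rw [sup_of_le_right h]
      by_cases hpb : p ∈ b.primeFactors
      · rw [if_pos hpb]; omega
      · have hpa : p ∈ a.primeFactors := by
          rcases Finset.mem_union.mp hp with h' | h'
          · exact h'
          · exact absurd h' hpb
        have h0 : b.factorization p = 0 := by
          rw [← Finsupp.notMem_support_iff, Nat.support_factorization]; exact hpb
        have h1 : a.factorization p = 0 := by omega
        rw [if_pos hpa, h0, h1]; omega
    · rw [sup_of_le_left h]
      by_cases hpa : p ∈ a.primeFactors
      · rw [if_pos hpa]; omega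
      · have hpb : p ∈ b.primeFactors := by
          rcases Finset.mem_union.mp hp with h' | h'
          · exact absurd h' hpa
          · exact h'
        have h0 : a.factorization p = 0 := by
          rw [← Finsupp.notMem_support_iff, Nat.support_factorization]; exact hpa
        have h1 : b.factorization p = 0 := by omega
        rw [if_pos hpb, h0, h1]; omega
  refine (Finset.sum_le_sum key).trans ?_
  rw [Finset.sum_add_distrib, Finset.sum_ite_mem, Finset.sum_ite_mem]
  have e1 : (a.primeFactors ∪ b.primeFactors) ∩ a.primeFactors = a.primeFactors := by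
    rw [Finset.union_inter_cancel_left]
  have e2 : (a.primeFactors ∪ b.primeFactors) ∩ b.primeFactors = b.primeFactors := by
    rw [Finset.union_inter_cancel_right]
  rw [e1, e2]

lemma S_multiset_lcm (s : Multiset ℕ) (hs : ∀ a ∈ s, a ≠ 0) : S s.lcm ≤ s.sum := by
  induction s using Multiset.induction_on with
  | empty => simp [S_one]
  | cons a s ih =>
    rw [Multiset.lcm_cons, Multiset.sum_cons]
    have ha : a ≠ 0 := hs a (Multiset.mem_cons_self a s)
    have hs' : ∀ b ∈ s, b ≠ 0 := fun b hb => hs b (Multiset.mem_cons_of_mem hb)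
    have h0 : s.lcm ≠ 0 := by
      intro h
      rw [Multiset.lcm_eq_zero_iff] at h
      exact hs' 0 h rfl
    calc S (Nat.lcm a s.lcm) ≤ S a + S s.lcm := S_lcm ha h0
      _ ≤ a + s.sum := Nat.add_le_add (S_le ha) (ih hs')

lemma S_orderOf {n : ℕ} (σ : Equiv.Perm (Fin n)) : S (orderOf σ) ≤ n := by
  rw [← Equiv.Perm.lcm_cycleType]
  refine (S_multiset_lcm _ ?_).trans ?_
  · intro a ha
    have := Equiv.Perm.two_le_of_mem_cycleType ha
    omega
  · have := Equiv.Perm.sum_cycleType_le σ
    simpa using this

/-! ### the counting recursion -/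

/-- the counting recursion over a list of groups of mutually exclusive items -/
def cntG : List (List ℕ) → ℕ → ℕ
  | [], _ => 1
  | g :: G, n => cntG G n + (g.map (fun q => if q ≤ n then cntG G (n - q) else 0)).sum

/-- the set of products of items -/
def TG : List (List ℕ) → ℕ → Finset ℕ
  | [], _ => {1}
  | g :: G, n =>
    g.foldr (fun q A => (if q ≤ n then (TG G (n - q)).image (fun m => q * m) else ∅) ∪ A)
      (TG G n)

lemma card_TG (G : List (List ℕ)) : ∀ n, (TG G n).card ≤ cntG G n := by
  induction G with
  | nil => intro n; simp [TG, cntG]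
  | cons g G ih =>
    intro n
    have key : ∀ l : List ℕ,
        (l.foldr (fun q A => (if q ≤ n then (TG G (n - q)).image (fun m => q * m) else ∅) ∪ A)
          (TG G n)).card ≤
        cntG G n + (l.map (fun q => if q ≤ n then cntG G (n - q) else 0)).sum := by
      intro l
      induction l with
      | nil => simpa using ih n
      | cons q l ihl =>
        rw [List.foldr_cons, List.map_cons, List.sum_cons]
        refine (Finset.card_union_le _ _).trans ?_
        have h1 : (if q ≤ n then (TG G (n - q)).image (fun m => q * m) else ∅).card ≤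
            (if q ≤ n then cntG G (n - q) else 0) := by
          split_ifs
          · exact Finset.card_image_le.trans (ih _)
          · simp
        omega
    exact key g

lemma mem_TG_cons_of_mem {g : List ℕ} {G : List (List ℕ)} {n m : ℕ} (h : m ∈ TG G n) :
    m ∈ TG (g :: G) n := by
  have key : ∀ l : List ℕ, m ∈ 
        l.foldr (fun q A => (if q ≤ n then (TG G (n - q)).image (fun m => q * m) else ∅) ∪ A)
          (TG G n) := by
    intro l
    induction l with
    | nil => simpa using h
    | cons q l ihl =>
      rw [List.foldr_cons]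
      exact Finset.mem_union_right _ ihl
  exact key g

lemma mem_TG_cons_of_mul {g : List ℕ} {G : List (List ℕ)} {n m q : ℕ} (hq : q ∈ g) (hqn : q ≤ n)
    (h : m ∈ TG G (n - q)) :
    q * m ∈ TG (g :: G) n := by
  have key : ∀ l : List ℕ, q ∈ l → q * m ∈ 
        l.foldr (fun q A => (if q ≤ n then (TG G (n - q)).image (fun m => q * m) else ∅) ∪ A)
          (TG G n) := by
    intro l
    induction l with
    | nil => intro h; simp at h
    | cons r l ihl =>
      intro hr
      rw [List.foldr_cons]
      rcases List.mem_cons.mp hr with h1 | h1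
      · subst h1
        apply Finset.mem_union_left
        rw [if_pos hqn]
        exact Finset.mem_image_of_mem _ h
      · exact Finset.mem_union_right _ (ihl h1)
  exact key g hq

/-- a group of mutually exclusive items: they share a common factor. -/
def Excl (g : List ℕ) : Prop := ∃ d, 1 < d ∧ ∀ q ∈ g, d ∣ q

lemma mem_TG (G : List (List ℕ)) (hG : ∀ g ∈ G, Excl g) : ∀ n m, m ≠ 0 → S m ≤ n →
    (∀ p ∈ m.primeFactors, ∃ g ∈ G, p ^ (m.factorization p) ∈ g) → m ∈ TG G n := by
  induction G with
  | nil =>
    intro n m hm _ h
    have : m.primeFactors = ∅ := by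
      rw [Finset.eq_empty_iff_forall_notMem]
      intro p hp
      obtain ⟨g, hg, _⟩ := h p hp
      simp at hg
    rcases Nat.primeFactors_eq_empty.mp this with h | h
    · exact absurd h hm
    · simp [TG, h]
  | cons g G ih =>
    intro n m hm hS h
    have ih' := ih (fun g' hg' => hG g' (List.mem_cons_of_mem g hg'))
    by_cases hex : ∃ p ∈ m.primeFactors, p ^ (m.factorization p) ∈ g
    · obtain ⟨p, hp, hpg⟩ := hex
      have hpp := Nat.prime_of_mem_primeFactors hp
      have hfac : p ^ m.factorization p * (m / p ^ m.factorization p) = m :=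
        Nat.ordProj_mul_ordCompl_eq_self m p
      set m' := m / p ^ m.factorization p with hm'
      have hm'0 : m' ≠ 0 := by
        intro h0
        rw [h0, mul_zero] at hfac
        exact hm hfac.symm
      have hv : m.factorization p ≠ 0 := by
        have := hpp.factorization_pos_of_dvd hm (Nat.dvd_of_mem_primeFactors hp)
        omega
      have hcop : Nat.Coprime (p ^ m.factorization p) m' :=
        (Nat.coprime_ordCompl hpp hm).pow_left _
      have hSm : S m = p ^ m.factorization p + S m' := by
        conv_lhs => rw [← hfac]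
        rw [S_mul hcop, S_prime_pow hpp hv]
      have hmem : m' ∈ TG G (n - p ^ m.factorization p) := by
        apply ih' _ _ hm'0 (by omega)
        intro r hr
        have hrp := Nat.prime_of_mem_primeFactors hr
        have hrm : r ∈ m.primeFactors := by
          rw [Nat.mem_primeFactors]
          exact ⟨hrp, (Nat.dvd_of_mem_primeFactors hr).trans (Nat.ordCompl_dvd m p), hm⟩
        have hne : r ≠ p := by
          rintro rfl
          exact Nat.not_dvd_ordCompl hpp hm (Nat.dvd_of_mem_primeFactors hr)
        have hfe : m'.factorization r = m.factorization r := by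
          rw [hm', Nat.factorization_ordCompl, Finsupp.erase_ne hne]
        rw [hfe]
        obtain ⟨g', hg', hrg'⟩ := h r hrm
        rcases List.mem_cons.mp hg' with h1 | h1
        · exfalso
          subst h1
          obtain ⟨d, hd1, hd⟩ := hG g' (List.mem_cons_self)
          have hd2 := hd _ hpg
          have hd3 := hd _ hrg'
          have hc : Nat.Coprime (p ^ m.factorization p) (r ^ m.factorization r) :=
            Nat.Coprime.pow _ _ ((Nat.coprime_primes hpp hrp).mpr (Ne.symm hne))
          have := Nat.eq_one_of_dvd_coprimes hc hd2 hd3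
          omega
        · exact ⟨g', h1, hrg'⟩
      have := mem_TG_cons_of_mul (g := g) (G := G) (n := n) hpg (by omega) hmem
      rw [hfac] at this
      exact this
    · apply mem_TG_cons_of_mem
      apply ih' _ _ hm hS
      intro p hp
      obtain ⟨g', hg', hpg'⟩ := h p hp
      rcases List.mem_cons.mp hg' with h1 | h1
      · exact absurd ⟨p, hp, h1 ▸ hpg'⟩ hex
      · exact ⟨g', h1, hpg'⟩

/-- The set of orders of elements of the symmetric group on `n` letters. -/
lemma ncard_orders_le (n N : ℕ) (hnN : n ≤ N) (G : List (List ℕ)) (hG : ∀ g ∈ G, Excl g)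
    (hc : ∀ p a, p.Prime → 1 ≤ a → p ^ a ≤ N → ∃ g ∈ G, p ^ a ∈ g) :
    (Set.range (fun σ : Equiv.Perm (Fin n) => orderOf σ)).ncard ≤ cntG G N := by
  have hsub : Set.range (fun σ : Equiv.Perm (Fin n) => orderOf σ) ⊆ (TG G N : Set ℕ) := by
    rintro m ⟨σ, rfl⟩
    have hpos : orderOf σ ≠ 0 := (orderOf_pos σ).ne'
    have hS : S (orderOf σ) ≤ N := (S_orderOf σ).trans hnN
    rw [Finset.mem_coe]
    apply mem_TG G hG N _ hpos hS
    intro p hp
    have hpp := Nat.prime_of_mem_primeFactors hp
    apply hc p _ hpp
    · have := hpp.factorization_pos_of_dvd hpos (Nat.dvd_of_mem_primeFactors hp)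
      omega
    · refine le_trans ?_ hS
      unfold S
      exact Finset.single_le_sum (f := fun p => p ^ (orderOf σ).factorization p)
        (fun i _ => Nat.zero_le _) hp
  calc _ ≤ (TG G N : Set ℕ).ncard := Set.ncard_le_ncard hsub (Finset.finite_toSet _)
    _ = (TG G N).card := Set.ncard_coe_finset _
    _ ≤ cntG G N := card_TG G N

/-- Rankin's inequality. -/
lemma rankin (z : ℝ) (hz0 : 0 ≤ z) (hz1 : z ≤ 1) (G : List (List ℕ)) : ∀ n,
    (cntG G n : ℝ) * z ^ n ≤ (G.map (fun g => 1 + (g.map (fun q => z ^ q)).sum)).prod := by
  induction G with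
  | nil => intro n; simpa [cntG] using pow_le_one₀ hz0 hz1
  | cons g G ih =>
    intro n
    rw [List.map_cons, List.prod_cons]
    set Q := (G.map (fun g => 1 + (g.map (fun q => z ^ q)).sum)).prod with hQ
    have hQ0 : 0 ≤ Q := by
      have := ih 0
      rw [pow_zero, mul_one] at this
      exact le_trans (Nat.cast_nonneg _) this
    have key : ∀ l : List ℕ,
        (((l.map (fun q => if q ≤ n then cntG G (n - q) else 0)).sum : ℕ) : ℝ) * z ^ n ≤
          (l.map (fun q => z ^ q)).sum * Q := by
      intro l
      induction l with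
      | nil => simp
      | cons q l ihl =>
        rw [List.map_cons, List.sum_cons, List.map_cons, List.sum_cons, Nat.cast_add, add_mul,
          add_mul]
        apply add_le_add _ ihl
        split_ifs with hq
        · have e : z ^ n = z ^ (n - q) * z ^ q := by
            rw [← pow_add]; congr 1; omega
          rw [e, ← mul_assoc, mul_comm (z ^ q)]
          exact mul_le_mul_of_nonneg_right (ih _) (pow_nonneg hz0 _)
        · simp only [Nat.cast_zero, zero_mul]
          exact mul_nonneg (pow_nonneg hz0 _) hQ0
    have h1 := key g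
    have h2 := ih n
    have : (cntG (g :: G) n : ℝ) * z ^ n = (cntG G n : ℝ) * z ^ n +
        (((g.map (fun q => if q ≤ n then cntG G (n - q) else 0)).sum : ℕ) : ℝ) * z ^ n := by
      rw [cntG, Nat.cast_add, add_mul]
    rw [this, add_mul, one_mul]
    exact add_le_add h2 h1

end Pool.Agent.Lib.MP_bcad5b_nt
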