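import Mathlib
import Pool.Agent.Lib.MP_bcad5b_nt.Comb

set_option autoImplicit false

namespace Pool.Agent.Lib.MP_bcad5b_nt

open Finset

/-! ### lists of items -/

/-- the powers of `p` up to `K` -/
def pw (K p : ℕ) : List ℕ := ((List.range 14).map (fun a => p ^ (a + 1))).filter (fun q => Nat.ble q K)

/-- the singleton groups of numbers coprime to `P` -/
def singles (P K : ℕ) : List ℕ :=
  (List.range (K + 1)).filter (fun k => Nat.ble 2 k && Nat.beq (Nat.gcd k P) 1)

/-- small primes -/
def smallPrimes : List ℕ := [2, 3, 5, 7, 11, 13, 17, 19, 23, 29, 31, 37, 41, 43, 47, 53, 59, 61, 67, 71,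
  73, 79, 83, 89, 97, 101, 103, 107, 109]

/-- product of the small primes -/
def PP : ℕ := 2*3*5*7*11*13*17*19*23*29*31*37*41*43*47*53*59*61*67*71*73*79*83*89*97*101*103*107*109

lemma PP_eq : PP = smallPrimes.prod := by decide +kernel

lemma mem_smallPrimes_of_dvd {p : ℕ} (hp : p.Prime) (h : p ∣ PP) : p ∈ smallPrimes := by
  rw [PP_eq] at h
  obtain ⟨q, hq, hpq⟩ := (Nat.Prime.prime hp).dvd_prod_iff.mp h
  have : q.Prime := by
    have hall : ∀ q ∈ smallPrimes, q.Prime := by
      unfold smallPrimes
      intro q hq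
      fin_cases hq <;> norm_num
    exact hall q hq
  rw [(Nat.prime_dvd_prime_iff_eq hp this).mp hpq]
  exact hq

/-- the groups used -/
def groups (K : ℕ) : List (List ℕ) :=
  smallPrimes.map (pw K) ++ (singles PP K).map (fun k => [k])

lemma excl_pw (K : ℕ) : ∀ p ∈ smallPrimes, Excl (pw K p) := by
  intro p hp
  refine ⟨p, ?_, ?_⟩
  · have : ∀ q ∈ smallPrimes, 1 < q := by decide
    exact this p hp
  · intro q hq
    unfold pw at hq
    rw [List.mem_filter, List.mem_map] at hq
    obtain ⟨⟨a, _, rfl⟩, _⟩ := hq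
    exact dvd_pow_self p (Nat.succ_ne_zero a)

lemma excl_single {k : ℕ} (hk : 2 ≤ k) : Excl [k] := by
  refine ⟨k, by omega, ?_⟩
  intro q hq
  rw [List.mem_singleton] at hq
  rw [hq]

lemma mem_singles {P K k : ℕ} : k ∈ singles P K ↔ k ≤ K ∧ 2 ≤ k ∧ Nat.Coprime k P := by
  unfold singles
  rw [List.mem_filter, List.mem_range, Bool.and_eq_true, Nat.ble_eq, Nat.beq_eq]
  unfold Nat.Coprime
  constructor
  · rintro ⟨h1, h2, h3⟩; exact ⟨by omega, h2, h3⟩
  · rintro ⟨h1, h2, h3⟩; exact ⟨by omega, h2, h3⟩

lemma excl_groups (K : ℕ) : ∀ g ∈ groups K, Excl g := by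
  intro g hg
  unfold groups at hg
  rw [List.mem_append] at hg
  rcases hg with h | h
  · rw [List.mem_map] at h
    obtain ⟨p, hp, rfl⟩ := h
    exact excl_pw K p hp
  · rw [List.mem_map] at h
    obtain ⟨k, hk, rfl⟩ := h
    exact excl_single (mem_singles.mp hk).2.1

lemma mem_pw {K p a : ℕ} (hp : 2 ≤ p) (ha : 1 ≤ a) (hK : p ^ a ≤ K) (hK2 : K < 2 ^ 15) :
    p ^ a ∈ pw K p := by
  unfold pw
  rw [List.mem_filter, List.mem_map]
  refine ⟨⟨a - 1, ?_, ?_⟩, ?_⟩
  · rw [List.mem_range]
    have h1 : 2 ^ a ≤ p ^ a := Nat.pow_le_pow_left hp a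
    have h2 : 2 ^ a < 2 ^ 15 := by omega
    have h3 : a < 15 := (Nat.pow_lt_pow_iff_right (by norm_num)).mp h2
    omega
  · congr 1; omega
  · rw [Nat.ble_eq]; exact hK

lemma complete_groups {K p a : ℕ} (hp : p.Prime) (ha : 1 ≤ a) (hK : p ^ a ≤ K) (hK2 : K < 2 ^ 15) :
    ∃ g ∈ groups K, p ^ a ∈ g := by
  unfold groups
  by_cases h : p ∣ PP
  · refine ⟨pw K p, ?_, mem_pw hp.two_le ha hK hK2⟩
    rw [List.mem_append]
    left
    exact List.mem_map_of_mem (mem_smallPrimes_of_dvd hp h)
  · refine ⟨[p ^ a], ?_, by simp⟩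
    rw [List.mem_append]
    right
    rw [List.mem_map]
    refine ⟨p ^ a, ?_, rfl⟩
    rw [mem_singles]
    refine ⟨hK, ?_, ?_⟩
    · calc 2 ≤ p := hp.two_le
        _ ≤ p ^ a := Nat.le_self_pow (by omega) p
    · exact Nat.Coprime.pow_left a ((Nat.Prime.coprime_iff_not_dvd hp).mpr h)

/-! ### dynamic programming -/

/-- add `B` shifted by `q` to `A` -/
def addShift : ℕ → List ℕ → List ℕ → List ℕ
  | _, [], _ => []
  | 0, a :: as, b :: bs => (a + b) :: addShift 0 as bs
  | 0, a :: as, [] => a :: as
  | q+1, a :: as, bs => a :: addShift q as bs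

lemma addShift_length : ∀ (q : ℕ) (A B : List ℕ), (addShift q A B).length = A.length
  | _, [], _ => by simp [addShift]
  | 0, a :: as, b :: bs => by simp [addShift, addShift_length 0 as bs]
  | 0, a :: as, [] => by simp [addShift]
  | q+1, a :: as, bs => by simp [addShift, addShift_length q as bs]

lemma addShift_getD : ∀ (q : ℕ) (A B : List ℕ) (n : ℕ), n < A.length →
    (addShift q A B).getD n 0 = A.getD n 0 + (if q ≤ n then B.getD (n - q) 0 else 0)
  | _, [], _, n => by intro h; simp at h
  | 0, a :: as, b :: bs, n => by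
    intro h
    cases n with
    | zero => simp [addShift]
    | succ n =>
      have := addShift_getD 0 as bs n (by simpa using h)
      simp only [addShift, List.getD_cons_succ, Nat.zero_le, if_true, Nat.sub_zero]
      simpa using this
  | 0, a :: as, [], n => by
    intro h
    simp [addShift]
  | q+1, a :: as, bs, n => by
    intro h
    cases n with
    | zero => simp [addShift]
    | succ n =>
      have := addShift_getD q as bs n (by simpa using h)
      simp only [addShift, List.getD_cons_succ]
      rw [this]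
      simp

/-- run the recursion on lists -/
def runL : List (List ℕ) → List ℕ → List ℕ
  | [], f => f
  | g :: G, f => runL G (g.foldr (fun q acc => addShift q acc f) f)

lemma foldr_step (N : ℕ) (G : List (List ℕ)) (f : List ℕ) (hlen : f.length = N + 1)
    (hf : ∀ n, n ≤ N → f.getD n 0 = cntG G n) (g : List ℕ) :
    (g.foldr (fun q acc => addShift q acc f) f).length = N + 1 ∧
    ∀ n, n ≤ N → (g.foldr (fun q acc => addShift q acc f) f).getD n 0 = cntG (g :: G) n := by
  have key : ∀ l : List ℕ, (l.foldr (fun q acc => addShift q acc f) f).length = N + 1 ∧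
      ∀ n, n ≤ N → (l.foldr (fun q acc => addShift q acc f) f).getD n 0 =
        cntG G n + (l.map (fun q => if q ≤ n then cntG G (n - q) else 0)).sum := by
    intro l
    induction l with
    | nil => exact ⟨hlen, fun n hn => by simpa using hf n hn⟩
    | cons q l ih =>
      rw [List.foldr_cons]
      refine ⟨by rw [addShift_length]; exact ih.1, ?_⟩
      intro n hn
      rw [addShift_getD _ _ _ _ (by rw [ih.1]; omega), ih.2 n hn, List.map_cons, List.sum_cons]
      have : (if q ≤ n then f.getD (n - q) 0 else 0) = (if q ≤ n then cntG G (n - q) else 0) := by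
        split_ifs
        · rw [hf _ (by omega)]
        · rfl
      rw [this]; omega
  exact key g

lemma runL_spec (N : ℕ) (G : List (List ℕ)) : ∀ (H : List (List ℕ)) (f : List ℕ),
    f.length = N + 1 → (∀ n, n ≤ N → f.getD n 0 = cntG H n) →
    (∀ n, n ≤ N → (runL G f).getD n 0 = cntG (G.reverse ++ H) n) := by
  induction G with
  | nil => intro H f _ hf n hn; simpa [runL] using hf n hn
  | cons g G ih =>
    intro H f hlen hf n hn
    rw [runL]
    have h := foldr_step N H f hlen hf g
    rw [ih (g :: H) _ h.1 h.2 n hn]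
    simp

/-- Newton iteration for the integer square root (unverified, checked a posteriori) -/
def newton (x : ℕ) : ℕ → ℕ → ℕ
  | 0, s => s
  | k+1, s => newton x k ((s + x / s) / 2)

/-- check `v ≤ exp (sqrt n)` -/
def chk (n v : ℕ) : Bool :=
  let c := newton (1024 * n) 14 1200
  Nat.ble (c * c) (1024 * n) && Nat.ble (v ^ 32 * (10 ^ 7) ^ c) (27182818 ^ c)

/-- check a list -/
def chkL : ℕ → List ℕ → Bool
  | _, [] => true
  | n, v :: l => chk n v && chkL (n + 1) l

lemma chkL_spec : ∀ (l : List ℕ) (n : ℕ), chkL n l = true → ∀ i, i < l.length →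
    chk (n + i) (l.getD i 0) = true
  | [], n => by intro _ i hi; simp at hi
  | v :: l, n => by
    intro h i hi
    rw [chkL, Bool.and_eq_true] at h
    cases i with
    | zero => simpa using h.1
    | succ i =>
      have := chkL_spec l (n + 1) h.2 i (by simpa using hi)
      rw [List.getD_cons_succ, show n + (i + 1) = n + 1 + i by ring]
      exact this

lemma exp_one_gt : (27182818 : ℝ) / 10 ^ 7 < Real.exp 1 := by
  have := Real.exp_one_gt_d9
  norm_num at this ⊢
  linarith

lemma le_exp_of_chk {n v : ℕ} (h : chk n v = true) : (v : ℝ) ≤ Real.exp (Real.sqrt n) := by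
  unfold chk at h
  simp only [Bool.and_eq_true, Nat.ble_eq] at h
  set c := newton (1024 * n) 14 1200 with hc
  obtain ⟨h1, h2⟩ := h
  have h1' : (c : ℝ) / 32 ≤ Real.sqrt n := by
    apply Real.le_sqrt_of_sq_le
    have : ((c * c : ℕ) : ℝ) ≤ ((1024 * n : ℕ) : ℝ) := by exact_mod_cast h1
    push_cast at this
    rw [div_pow]
    rw [div_le_iff₀ (by norm_num)]
    nlinarith
  have h2' : (v : ℝ) ^ 32 * (10 ^ 7) ^ c ≤ 27182818 ^ c := by exact_mod_cast h2
  have h3 : (v : ℝ) ^ 32 ≤ (27182818 / 10 ^ 7) ^ c := by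
    rw [div_pow, le_div_iff₀ (by positivity)]
    exact h2'
  have h4 : (v : ℝ) ^ 32 ≤ (Real.exp (c / 32)) ^ 32 := by
    calc (v : ℝ) ^ 32 ≤ (27182818 / 10 ^ 7) ^ c := h3
      _ ≤ (Real.exp 1) ^ c := pow_le_pow_left₀ (by norm_num) exp_one_gt.le c
      _ = (Real.exp (c / 32)) ^ 32 := by
        rw [← Real.exp_nat_mul, ← Real.exp_nat_mul]
        congr 1
        push_cast
        ring
  have h5 : (v : ℝ) ≤ Real.exp (c / 32) :=
    le_of_pow_le_pow_left₀ (by norm_num) (Real.exp_pos _).le h4
  exact h5.trans (Real.exp_le_exp.mpr h1')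

set_option maxRecDepth 1000000 in
theorem dp_check : chkL 0 (runL (groups 1000) (List.replicate 1001 1)) = true := by
  decide +kernel

lemma runL_replicate (N : ℕ) (G : List (List ℕ)) (m : ℕ) (hm : m ≤ N) :
    (runL G (List.replicate (N + 1) 1)).getD m 0 = cntG G.reverse m := by
  have := runL_spec N G [] (List.replicate (N + 1) 1) List.length_replicate (by
    intro k hk
    rw [List.getD_eq_getElem?_getD, List.getElem?_replicate_of_lt (by omega)]
    rfl) m hm
  rw [List.append_nil] at this
  exact this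

lemma runL_length (L : ℕ) (G : List (List ℕ)) : ∀ f : List ℕ, f.length = L →
    (runL G f).length = L := by
  induction G with
  | nil => intro f hf; simpa [runL] using hf
  | cons g G ih =>
    intro f hf
    rw [runL]
    apply ih
    have : ∀ l : List ℕ, (l.foldr (fun q acc => addShift q acc f) f).length = L := by
      intro l
      induction l with
      | nil => simpa using hf
      | cons q l ih => rw [List.foldr_cons, addShift_length]; exact ih
    exact this g

theorem small_case (n : ℕ) (hn : n ≤ 1000) :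
    ((Set.range (fun σ : Equiv.Perm (Fin n) => orderOf σ)).ncard : ℝ) ≤
      Real.exp (Real.sqrt n) := by
  have hchk := chkL_spec _ 0 dp_check n
    (by rw [runL_length 1001 _ _ List.length_replicate]; omega)
  rw [Nat.zero_add, runL_replicate 1000 (groups 1000) n hn] at hchk
  have h1 := le_exp_of_chk hchk
  refine le_trans ?_ h1
  have := ncard_orders_le n n le_rfl (groups 1000).reverse (by
    intro g hg
    exact excl_groups 1000 g (List.mem_reverse.mp hg)) (by
    intro p a hp ha hpa
    obtain ⟨g, hg, hpg⟩ := complete_groups (K := 1000) hp ha (by omega) (by norm_num)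
    exact ⟨g, List.mem_reverse.mpr hg, hpg⟩)
  exact_mod_cast this

end Pool.Agent.Lib.MP_bcad5b_nt
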