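import Mathlib
import Pool.Agent.Lib.MP_bcad5b_nt.Small

set_option autoImplicit false

namespace Pool.Agent.Lib.MP_bcad5b_nt

open Finset

/-- fixed point scale -/
def MM : ℕ := 2 ^ 64

/-- scanning product -/
def scan (X : ℕ) : ℕ → ℕ → ℕ → ℕ → ℕ × ℕ
  | 0, _, t, pr => (t, pr)
  | fuel+1, j, t, pr =>
    bif Nat.beq t 0 then (t, pr) else bif Nat.beq pr 0 then (t, pr) else
    bif Nat.beq (Nat.gcd (j + 1) PP) 1 then
      scan X fuel (j+1) (t*(X-1)/X+1) (pr*(MM+t)/MM+1)
    else scan X fuel (j+1) (t*(X-1)/X+1) pr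

/-- rounded up power -/
def zup (X q : ℕ) : ℕ := (X-1)^q*MM/X^q+1

/-- one group -/
def smallStep (X : ℕ) (g : List ℕ) (pr : ℕ) : ℕ := pr*(MM + (g.map (zup X)).sum)/MM+1

/-- all small groups -/
def smallAll (X K pr : ℕ) : ℕ := smallPrimes.foldr (fun p acc => smallStep X (pw K p) acc) pr

/-- the check of a segment -/
def segOK (N1 N2 X K c : ℕ) : Bool :=
  Nat.ble 2 X && Nat.ble 1 K && Nat.ble K N2 && Nat.ble (K + 1) (2 ^ 15) &&
  Nat.ble ((smallAll X K (scan X (K-1) 1 (zup X 2) MM).2)^32 * (10^7)^c) (MM^32 * 27182818^c) &&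
  Nat.ble ((c*2*X*(X-1)*MM + N2*(2*X-1)*32*MM + X*(scan X (K-1) 1 (zup X 2) MM).1*64*X*(X-1))^2)
    (N1*(64*X*(X-1)*MM)^2)

lemma nat_div_add_one (a b : ℕ) (hb : 0 < b) : (a : ℝ) / b ≤ ((a / b + 1 : ℕ) : ℝ) := by
  rw [div_le_iff₀ (by exact_mod_cast hb)]
  have h := Nat.lt_div_mul_add hb (a := a)
  have : a ≤ (a / b + 1) * b := by nlinarith
  exact_mod_cast this

lemma MM_pos : (0 : ℝ) < (MM : ℝ) := by unfold MM; positivity

lemma mul_step {pr u : ℕ} {A B : ℝ} (hA0 : 0 ≤ A) (hA : MM * A ≤ pr) (hB : MM * B ≤ u) :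
    MM * (A * B) ≤ ((pr * u / MM + 1 : ℕ) : ℝ) := by
  have h1 : ((pr * u : ℕ) : ℝ) / MM ≤ ((pr * u / MM + 1 : ℕ) : ℝ) :=
    nat_div_add_one _ _ (by unfold MM; positivity)
  refine le_trans ?_ h1
  rw [le_div_iff₀ MM_pos]
  push_cast
  have hM := MM_pos
  have h2 : (MM * A) * (MM * B) ≤ (pr : ℝ) * u := by
    rcases le_or_gt 0 B with hB0 | hB0
    · exact mul_le_mul hA hB (by positivity) (Nat.cast_nonneg _)
    · have : (MM * A) * (MM * B) ≤ 0 :=
        mul_nonpos_of_nonneg_of_nonpos (by positivity) (by nlinarith)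
      have h3 : (0 : ℝ) ≤ (pr : ℝ) * u := by positivity
      linarith
  calc (MM : ℝ) * (A * B) * MM = (MM * A) * (MM * B) := by ring
    _ ≤ _ := h2

lemma zup_ge {X : ℕ} (hX : 2 ≤ X) (q : ℕ) : (MM : ℝ) * (((X : ℝ) - 1) / X) ^ q ≤ zup X q := by
  unfold zup
  have hXp : 0 < X ^ q := by positivity
  have h1 := nat_div_add_one ((X-1)^q*MM) (X^q) hXp
  refine le_trans (le_of_eq ?_) h1
  have : ((X - 1 : ℕ) : ℝ) = (X : ℝ) - 1 := by
    rw [Nat.cast_sub (by omega)]; simp
  push_cast
  rw [this, div_pow]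
  have : (X : ℝ) ^ q ≠ 0 := by positivity
  field_simp

/-- product over singles -/
noncomputable def Fz (z : ℝ) (K : ℕ) : ℝ := ((singles PP K).map (fun k => 1 + z ^ k)).prod

lemma Fz_one (z : ℝ) : Fz z 1 = 1 := by
  have : singles PP 1 = [] := by decide +kernel
  unfold Fz
  rw [this]; simp

lemma Fz_succ (z : ℝ) (j : ℕ) (hj : 1 ≤ j) : Fz z (j + 1) =
    Fz z j * (if Nat.gcd (j + 1) PP = 1 then 1 + z ^ (j + 1) else 1) := by
  have : singles PP (j + 1) = singles PP j ++ (if Nat.gcd (j + 1) PP = 1 then [j + 1] else []) := by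
    unfold singles
    rw [List.range_succ, List.filter_append]
    congr 1
    have h2 : Nat.ble 2 (j + 1) = true := by rw [Nat.ble_eq]; omega
    by_cases h : Nat.gcd (j + 1) PP = 1
    · rw [if_pos h, List.filter_cons_of_pos]
      · simp
      · rw [h2, Bool.true_and, Nat.beq_eq]; exact h
    · rw [if_neg h, List.filter_cons_of_neg]
      · simp
      · rw [h2, Bool.true_and, Nat.beq_eq]; exact h
  unfold Fz
  rw [this, List.map_append, List.prod_append]
  congr 1
  split_ifs <;> simp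

lemma Fz_nonneg {z : ℝ} (hz : 0 ≤ z) (K : ℕ) : 0 ≤ Fz z K := by
  unfold Fz
  apply List.prod_nonneg
  intro a ha
  rw [List.mem_map] at ha
  obtain ⟨k, _, rfl⟩ := ha
  positivity

lemma scan_spec {X : ℕ} (hX : 2 ≤ X) : ∀ (fuel j t pr : ℕ), 1 ≤ j →
    (MM : ℝ) * (((X : ℝ) - 1) / X) ^ (j + 1) ≤ t →
    (MM : ℝ) * Fz (((X : ℝ) - 1) / X) j ≤ pr →
    (MM : ℝ) * (((X : ℝ) - 1) / X) ^ (j + fuel + 1) ≤ (scan X fuel j t pr).1 ∧
    (MM : ℝ) * Fz (((X : ℝ) - 1) / X) (j + fuel) ≤ (scan X fuel j t pr).2 := by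
  intro fuel
  have hX2 : (2 : ℝ) ≤ X := by exact_mod_cast hX
  have hz0 : (0 : ℝ) < ((X : ℝ) - 1) / X := by
    apply div_pos <;> linarith
  set z := ((X : ℝ) - 1) / X with hz
  induction fuel with
  | zero => intro j t pr _ h1 h2; exact ⟨h1, h2⟩
  | succ fuel ih =>
    intro j t pr hj h1 h2
    have ht0 : t ≠ 0 := by
      rintro rfl
      have : (0 : ℝ) < MM * z ^ (j + 1) := mul_pos MM_pos (pow_pos hz0 _)
      simp only [Nat.cast_zero] at h1
      linarith
    have hpr0 : pr ≠ 0 := by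
      rintro rfl
      have : (0 : ℝ) < MM * Fz z j := by
        apply mul_pos MM_pos
        unfold Fz
        apply List.prod_pos
        intro a ha
        rw [List.mem_map] at ha
        obtain ⟨k, _, rfl⟩ := ha
        positivity
      simp only [Nat.cast_zero] at h2
      linarith
    have e1 : Nat.beq t 0 = false := by
      rw [← Bool.not_eq_true, Nat.beq_eq]; exact ht0
    have e2 : Nat.beq pr 0 = false := by
      rw [← Bool.not_eq_true, Nat.beq_eq]; exact hpr0
    have ht' : (MM : ℝ) * z ^ (j + 1 + 1) ≤ ((t * (X - 1) / X + 1 : ℕ) : ℝ) := by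
      have h3 := nat_div_add_one (t * (X - 1)) X (by omega)
      refine le_trans ?_ h3
      have e3 : ((X - 1 : ℕ) : ℝ) = (X : ℝ) - 1 := by
        rw [Nat.cast_sub (by omega)]; simp
      push_cast
      rw [e3, pow_succ, ← mul_assoc, mul_div_assoc, ← hz]
      exact mul_le_mul_of_nonneg_right h1 hz0.le
    rw [scan, e1, e2, cond_false, cond_false]
    by_cases hg : Nat.gcd (j + 1) PP = 1
    · have e3 : Nat.beq (Nat.gcd (j + 1) PP) 1 = true := by rw [Nat.beq_eq]; exact hg
      rw [e3, cond_true]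
      have hpr' : (MM : ℝ) * Fz z (j + 1) ≤ ((pr * (MM + t) / MM + 1 : ℕ) : ℝ) := by
        rw [Fz_succ z j hj, if_pos hg]
        apply mul_step (Fz_nonneg hz0.le _) h2
        push_cast
        linarith
      have := ih (j + 1) _ _ (by omega) ht' hpr'
      rw [show j + (fuel + 1) = j + 1 + fuel by ring]
      exact this
    · have e3 : Nat.beq (Nat.gcd (j + 1) PP) 1 = false := by
        rw [← Bool.not_eq_true, Nat.beq_eq]; exact hg
      rw [e3, cond_false]
      have hpr' : (MM : ℝ) * Fz z (j + 1) ≤ (pr : ℝ) := by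
        rw [Fz_succ z j hj, if_neg hg, mul_one]; exact h2
      have := ih (j + 1) _ _ (by omega) ht' hpr'
      rw [show j + (fuel + 1) = j + 1 + fuel by ring]
      exact this

lemma smallAll_spec {X : ℕ} (hX : 2 ≤ X) (K pr : ℕ) (A : ℝ) (hA0 : 0 ≤ A) (hA : MM * A ≤ pr) :
    (MM : ℝ) * (A * (smallPrimes.map (fun p =>
      1 + ((pw K p).map (fun q => (((X : ℝ) - 1) / X) ^ q)).sum)).prod) ≤ smallAll X K pr := by
  unfold smallAll
  have hX2 : (2 : ℝ) ≤ X := by exact_mod_cast hX
  have hz0 : (0 : ℝ) < ((X : ℝ) - 1) / X := by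
    apply div_pos <;> linarith
  set z := ((X : ℝ) - 1) / X with hz
  have sum_nonneg' : ∀ g : List ℕ, 0 ≤ (g.map (fun q => z ^ q)).sum := by
    intro g
    apply List.sum_nonneg
    intro a ha
    rw [List.mem_map] at ha
    obtain ⟨k, _, rfl⟩ := ha
    positivity
  have key : ∀ l : List ℕ,
      0 ≤ (A * (l.map (fun p => 1 + ((pw K p).map (fun q => z ^ q)).sum)).prod) ∧
      (MM : ℝ) * (A * (l.map (fun p => 1 + ((pw K p).map (fun q => z ^ q)).sum)).prod) ≤
        (l.foldr (fun p acc => smallStep X (pw K p) acc) pr : ℕ) := by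
    intro l
    induction l with
    | nil => simpa using ⟨hA0, hA⟩
    | cons p l ih =>
      rw [List.map_cons, List.prod_cons, List.foldr_cons]
      have e : A * ((1 + ((pw K p).map (fun q => z ^ q)).sum) *
          (l.map (fun p => 1 + ((pw K p).map (fun q => z ^ q)).sum)).prod) =
          (A * (l.map (fun p => 1 + ((pw K p).map (fun q => z ^ q)).sum)).prod) *
          (1 + ((pw K p).map (fun q => z ^ q)).sum) := by ring
      rw [e]
      refine ⟨mul_nonneg ih.1 (by have := sum_nonneg' (pw K p); linarith), ?_⟩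
      unfold smallStep
      apply mul_step ih.1 ih.2
      have hs : ∀ g : List ℕ, (MM : ℝ) * (g.map (fun q => z ^ q)).sum ≤
          (((g.map (zup X)).sum : ℕ) : ℝ) := by
        intro g
        induction g with
        | nil => simp
        | cons q g ihg =>
          rw [List.map_cons, List.sum_cons, List.map_cons, List.sum_cons]
          have := zup_ge hX q
          rw [← hz] at this
          rw [Nat.cast_add, mul_add]
          exact add_le_add this ihg
      have := hs (pw K p)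
      rw [Nat.cast_add, mul_add, mul_one]
      exact add_le_add le_rfl this
  exact (key smallPrimes).2

lemma exp_a_ge {X : ℝ} (hX : 2 ≤ X) : X / (X - 1) ≤ Real.exp ((2 * X - 1) / (2 * X * (X - 1))) := by
  have h1 : (0 : ℝ) ≤ (2 * X - 1) / (2 * X * (X - 1)) := by
    apply div_nonneg
    · linarith
    · nlinarith
  refine le_trans ?_ (Real.quadratic_le_exp_of_nonneg h1)
  have hX1 : (0 : ℝ) < X - 1 := by linarith
  have hX0 : (0 : ℝ) < X := by linarith
  have : 1 + (2 * X - 1) / (2 * X * (X - 1)) + ((2 * X - 1) / (2 * X * (X - 1))) ^ 2 / 2 -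
      X / (X - 1) = 1 / (8 * X ^ 2 * (X - 1) ^ 2) := by
    field_simp
    ring
  have h2 : (0 : ℝ) < 1 / (8 * X ^ 2 * (X - 1) ^ 2) := by positivity
  linarith

/-- remaining items -/
def rest (K N : ℕ) : List ℕ := List.range' (K + 1) (N - K)

lemma sum_rest {z : ℝ} (hz0 : 0 ≤ z) (hz1 : z < 1) (s m : ℕ) :
    ((List.range' s m).map (fun k => z ^ k)).sum ≤ z ^ s / (1 - z) := by
  have h : ∀ m s, ((List.range' s m).map (fun k => z ^ k)).sum = z ^ s * (1 - z ^ m) / (1 - z) := by
    intro m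
    induction m with
    | zero => intro s; simp
    | succ m ih =>
      intro s
      rw [List.range'_succ, List.map_cons, List.sum_cons, ih]
      have : (1 - z) ≠ 0 := by linarith
      field_simp
      ring
  rw [h]
  have h1z : 0 < 1 - z := by linarith
  apply div_le_div_of_nonneg_right _ h1z.le
  have h1 : 0 ≤ z ^ m := pow_nonneg hz0 _
  have h2 : 0 ≤ z ^ s := pow_nonneg hz0 _
  nlinarith

lemma prod_le_exp_sum (z : ℝ) (hz0 : 0 ≤ z) (l : List ℕ) :
    (l.map (fun k => 1 + z ^ k)).prod ≤ Real.exp ((l.map (fun k => z ^ k)).sum) := by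
  induction l with
  | nil => simp
  | cons k l ih =>
    rw [List.map_cons, List.prod_cons, List.map_cons, List.sum_cons, Real.exp_add]
    apply mul_le_mul _ ih _ (Real.exp_pos _).le
    · have := Real.add_one_le_exp (z ^ k); linarith
    · apply List.prod_nonneg
      intro a ha
      rw [List.mem_map] at ha
      obtain ⟨k, _, rfl⟩ := ha
      positivity

theorem seg_case {N1 N2 X K c : ℕ} (h : segOK N1 N2 X K c = true) (n : ℕ) (h1 : N1 ≤ n)
    (h2 : n ≤ N2) :
    ((Set.range (fun σ : Equiv.Perm (Fin n) => orderOf σ)).ncard : ℝ) ≤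
      Real.exp (Real.sqrt n) := by
  unfold segOK at h
  simp only [Bool.and_eq_true, Nat.ble_eq] at h
  obtain ⟨⟨⟨⟨⟨hX, hK1⟩, hKN⟩, hK15⟩, hpr⟩, hA⟩ := h
  set t := (scan X (K-1) 1 (zup X 2) MM).1 with ht
  set pr0 := (scan X (K-1) 1 (zup X 2) MM).2 with hpr0
  set pr := smallAll X K pr0 with hprdef
  have hX2 : (2 : ℝ) ≤ X := by exact_mod_cast hX
  have hX0 : (0 : ℝ) < X := by linarith
  have hX1 : (0 : ℝ) < (X : ℝ) - 1 := by linarith
  have hz0 : (0 : ℝ) < ((X : ℝ) - 1) / X := by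
    apply div_pos <;> linarith
  have hz1 : ((X : ℝ) - 1) / X < 1 := by rw [div_lt_one hX0]; linarith
  have hscan := scan_spec hX (K-1) 1 (zup X 2) MM le_rfl (zup_ge hX 2) (by rw [Fz_one, mul_one])
  rw [← ht, ← hpr0, show 1 + (K - 1) = K by omega] at hscan
  have hsmall := smallAll_spec hX K pr0 _ (Fz_nonneg hz0.le _) hscan.2
  rw [← hprdef] at hsmall
  set z := ((X : ℝ) - 1) / X with hz
  have h1z : 1 - z = 1 / X := by rw [hz]; field_simp; ring
  -- the groups
  set G := groups K ++ (rest K N2).map (fun k => [k]) with hG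
  have hexcl : ∀ g ∈ G, Excl g := by
    intro g hg
    rw [hG, List.mem_append] at hg
    rcases hg with hg | hg
    · exact excl_groups K g hg
    · rw [List.mem_map] at hg
      obtain ⟨k, hk, rfl⟩ := hg
      apply excl_single
      unfold rest at hk
      rw [List.mem_range'_1] at hk
      omega
  have hcomp : ∀ p a, p.Prime → 1 ≤ a → p ^ a ≤ N2 → ∃ g ∈ G, p ^ a ∈ g := by
    intro p a hp ha hpa
    by_cases hle : p ^ a ≤ K
    · obtain ⟨g, hg, hpg⟩ := complete_groups hp ha hle (by omega)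
      exact ⟨g, by rw [hG, List.mem_append]; exact Or.inl hg, hpg⟩
    · refine ⟨[p ^ a], ?_, by simp⟩
      rw [hG, List.mem_append]
      right
      rw [List.mem_map]
      refine ⟨p ^ a, ?_, rfl⟩
      unfold rest
      rw [List.mem_range'_1]
      omega
  have hW := ncard_orders_le n N2 h2 G hexcl hcomp
  have hR := rankin z hz0.le hz1.le G N2
  -- the product over the groups
  have hprod : (G.map (fun g => 1 + (g.map (fun q => z ^ q)).sum)).prod =
      (Fz z K * (smallPrimes.map (fun p => 1 + ((pw K p).map (fun q => z ^ q)).sum)).prod) *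
      ((rest K N2).map (fun k => 1 + z ^ k)).prod := by
    rw [hG, groups, List.map_append, List.map_append, List.prod_append, List.prod_append]
    rw [List.map_map, List.map_map, List.map_map]
    unfold Fz
    have e1 : ((fun g : List ℕ => 1 + (g.map (fun q => z ^ q)).sum) ∘ (fun k : ℕ => [k])) =
        (fun k : ℕ => 1 + z ^ k) := by
      funext k; simp
    rw [e1]
    have e2 : ((fun g : List ℕ => 1 + (g.map (fun q => z ^ q)).sum) ∘ pw K) =
        (fun p : ℕ => 1 + ((pw K p).map (fun q => z ^ q)).sum) := by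
      funext k; simp
    rw [e2]
    ring
  have hprodle : (G.map (fun g => 1 + (g.map (fun q => z ^ q)).sum)).prod ≤
      (pr / MM) * Real.exp (X * t / MM) := by
    rw [hprod]
    have hM := MM_pos
    apply mul_le_mul
    · rw [le_div_iff₀ hM]
      linarith
    · refine (prod_le_exp_sum z hz0.le _).trans ?_
      apply Real.exp_le_exp.mpr
      unfold rest
      refine (sum_rest hz0.le hz1 _ _).trans ?_
      rw [h1z, div_div_eq_mul_div, div_one, le_div_iff₀ hM]
      have := hscan.1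
      nlinarith
    · apply List.prod_nonneg
      intro a ha
      rw [List.mem_map] at ha
      obtain ⟨k, _, rfl⟩ := ha
      positivity
    · positivity
  have hprexp : (pr : ℝ) / MM ≤ Real.exp (c / 32) := by
    have h3 : (pr : ℝ) ^ 32 * (10 ^ 7) ^ c ≤ MM ^ 32 * 27182818 ^ c := by exact_mod_cast hpr
    have hM := MM_pos
    have h4 : ((pr : ℝ) / MM) ^ 32 ≤ (27182818 / 10 ^ 7) ^ c := by
      rw [div_pow, div_pow, div_le_div_iff₀ (by positivity) (by positivity)]
      linarith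
    have h5 : ((pr : ℝ) / MM) ^ 32 ≤ (Real.exp (c / 32)) ^ 32 := by
      calc _ ≤ (27182818 / 10 ^ 7 : ℝ) ^ c := h4
        _ ≤ (Real.exp 1) ^ c := pow_le_pow_left₀ (by norm_num) exp_one_gt.le c
        _ = (Real.exp (c / 32)) ^ 32 := by
          rw [← Real.exp_nat_mul, ← Real.exp_nat_mul]
          congr 1
          push_cast
          ring
    exact le_of_pow_le_pow_left₀ (by norm_num) (Real.exp_pos _).le h5
  have hzinv : (1 : ℝ) ≤ Real.exp (N2 * ((2 * X - 1) / (2 * X * (X - 1)))) * z ^ N2 := by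
    have h3 := exp_a_ge hX2
    have h4 : 1 ≤ Real.exp ((2 * X - 1) / (2 * X * (X - 1))) * z := by
      calc (1 : ℝ) = X / (X - 1) * z := by rw [hz]; field_simp
        _ ≤ _ := mul_le_mul_of_nonneg_right h3 hz0.le
    rw [Real.exp_nat_mul, ← mul_pow]
    exact one_le_pow₀ h4
  -- combine
  have hM := MM_pos
  have hfinal : (cntG G N2 : ℝ) ≤ Real.exp (N2 * ((2 * X - 1) / (2 * X * (X - 1))) + c / 32 +
      X * t / MM) := by
    have hc0 : (0 : ℝ) ≤ cntG G N2 := Nat.cast_nonneg _
    calc (cntG G N2 : ℝ) = cntG G N2 * 1 := by ring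
      _ ≤ cntG G N2 * (Real.exp (N2 * ((2 * X - 1) / (2 * X * (X - 1)))) * z ^ N2) :=
        mul_le_mul_of_nonneg_left hzinv hc0
      _ = Real.exp (N2 * ((2 * X - 1) / (2 * X * (X - 1)))) * (cntG G N2 * z ^ N2) := by ring
      _ ≤ Real.exp (N2 * ((2 * X - 1) / (2 * X * (X - 1)))) *
          ((pr / MM) * Real.exp (X * t / MM)) :=
        mul_le_mul_of_nonneg_left (hR.trans hprodle) (Real.exp_pos _).le
      _ ≤ Real.exp (N2 * ((2 * X - 1) / (2 * X * (X - 1)))) *
          (Real.exp (c / 32) * Real.exp (X * t / MM)) := by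
        apply mul_le_mul_of_nonneg_left _ (Real.exp_pos _).le
        exact mul_le_mul_of_nonneg_right hprexp (Real.exp_pos _).le
      _ = _ := by rw [← Real.exp_add, ← Real.exp_add]; ring_nf
  have hsqrt : N2 * ((2 * X - 1) / (2 * X * (X - 1))) + c / 32 + X * t / MM ≤ Real.sqrt N1 := by
    apply Real.le_sqrt_of_sq_le
    have hA' : ((c*2*X*(X-1)*MM + N2*(2*X-1)*32*MM + X*t*64*X*(X-1) : ℝ))^2 ≤
        (N1*(64*X*(X-1)*MM)^2 : ℝ) := by
      have e3 : ((X - 1 : ℕ) : ℝ) = (X : ℝ) - 1 := by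
        rw [Nat.cast_sub (by omega)]; simp
      have e4 : ((2 * X - 1 : ℕ) : ℝ) = 2 * (X : ℝ) - 1 := by
        rw [Nat.cast_sub (by omega)]; push_cast; ring
      have : (((c*2*X*(X-1)*MM + N2*(2*X-1)*32*MM + X*t*64*X*(X-1))^2 : ℕ) : ℝ) ≤
        ((N1*(64*X*(X-1)*MM)^2 : ℕ) : ℝ) := by exact_mod_cast hA
      push_cast at this
      rw [e3, e4] at this
      exact this
    have e5 : N2 * ((2 * X - 1) / (2 * X * (X - 1))) + c / 32 + X * t / MM =
      (c*2*X*(X-1)*MM + N2*(2*X-1)*32*MM + X*t*64*X*(X-1) : ℝ) / (64*X*(X-1)*MM) := by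
      field_simp
      ring
    rw [e5, div_pow, div_le_iff₀ (by positivity)]
    exact hA'
  calc _ ≤ (cntG G N2 : ℝ) := by exact_mod_cast hW
    _ ≤ _ := hfinal
    _ ≤ Real.exp (Real.sqrt N1) := Real.exp_le_exp.mpr hsqrt
    _ ≤ Real.exp (Real.sqrt n) := Real.exp_le_exp.mpr (Real.sqrt_le_sqrt (by exact_mod_cast h1))

end Pool.Agent.Lib.MP_bcad5b_nt
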