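import Mathlib
import Pool.Agent.Lib.MP_bcad5b_nt.Mid

set_option autoImplicit false

namespace Pool.Agent.Lib.MP_bcad5b_nt

open Finset

/-- reduced residues modulo 210 -/
def res210 : Finset ℕ := (range 210).filter (fun r => Nat.Coprime r 210)

lemma res210_card : res210.card = 48 := by decide +kernel

lemma res210_inv : ∀ r ∈ res210, 210 - r ∈ res210 := by decide +kernel

lemma sum_res210 {z : ℝ} (hz0 : 0 ≤ z) (hz1 : z ≤ 1) :
    ∑ r ∈ res210, z ^ r ≤ 24 * (1 + z ^ 210) := by
  have hlt : ∀ r ∈ res210, r < 210 := fun r hr => by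
    unfold res210 at hr; rw [mem_filter, mem_range] at hr; exact hr.1
  have h1 : ∑ r ∈ res210, z ^ r = ∑ r ∈ res210, z ^ (210 - r) := by
    apply Finset.sum_nbij' (fun r => 210 - r) (fun r => 210 - r)
    · exact res210_inv
    · exact res210_inv
    · intro r hr; have := hlt r hr; omega
    · intro r hr; have := hlt r hr; omega
    · intro r hr
      have := hlt r hr
      congr 1; omega
  have h2 : ∑ r ∈ res210, z ^ r + ∑ r ∈ res210, z ^ (210 - r) ≤ 48 * (1 + z ^ 210) := by
    rw [← Finset.sum_add_distrib]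
    have : ∀ r ∈ res210, z ^ r + z ^ (210 - r) ≤ 1 + z ^ 210 := by
      intro r hr
      have hr' := hlt r hr
      have e : z ^ 210 = z ^ r * z ^ (210 - r) := by
        rw [← pow_add]; congr 1; omega
      have a1 : z ^ r ≤ 1 := pow_le_one₀ hz0 hz1
      have a2 : z ^ (210 - r) ≤ 1 := pow_le_one₀ hz0 hz1
      nlinarith [mul_nonneg (sub_nonneg.mpr a1) (sub_nonneg.mpr a2)]
    calc _ ≤ ∑ _r ∈ res210, (1 + z ^ 210) := Finset.sum_le_sum this
      _ = 48 * (1 + z ^ 210) := by
        rw [Finset.sum_const, res210_card]; simp; ring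
  rw [← h1] at h2
  linarith

lemma sum_coprime {z : ℝ} (hz0 : 0 ≤ z) (hz1 : z < 1) (J : ℕ) :
    ∑ k ∈ range (210 * J), (if Nat.Coprime k 210 then z ^ k else 0) ≤
      24 * (1 + z ^ 210) / (1 - z ^ 210) := by
  have h : ∀ J, ∑ k ∈ range (210 * J), (if Nat.Coprime k 210 then z ^ k else 0) =
      (∑ r ∈ res210, z ^ r) * ∑ j ∈ range J, (z ^ 210) ^ j := by
    intro J
    induction J with
    | zero => simp
    | succ J ih =>
      rw [Nat.mul_succ, Finset.sum_range_add, ih, Finset.sum_range_succ (fun j => (z ^ 210) ^ j),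
        mul_add]
      congr 1
      unfold res210
      rw [Finset.sum_filter, Finset.sum_mul]
      apply Finset.sum_congr rfl
      intro r _
      have : Nat.Coprime (210 * J + r) 210 ↔ Nat.Coprime r 210 := by
        rw [Nat.add_comm, Nat.coprime_add_mul_left_left]
      by_cases hc : Nat.Coprime r 210
      · rw [if_pos hc, if_pos (this.mpr hc), pow_add, pow_mul, mul_comm]
      · rw [if_neg hc, if_neg (fun h => hc (this.mp h)), zero_mul]
  rw [h]
  have hw1 : z ^ 210 < 1 := pow_lt_one₀ hz0 hz1 (by norm_num)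
  have hw0 : 0 ≤ z ^ 210 := pow_nonneg hz0 _
  have h1w : 0 < 1 - z ^ 210 := by linarith
  rw [le_div_iff₀ h1w, mul_assoc]
  have hgeo : (∑ j ∈ range J, (z ^ 210) ^ j) * (1 - z ^ 210) ≤ 1 := by
    have := geom_sum_mul (z ^ 210) J
    have h3 : 0 ≤ (z ^ 210) ^ J := pow_nonneg hw0 _
    nlinarith
  have hgeo0 : 0 ≤ (∑ j ∈ range J, (z ^ 210) ^ j) * (1 - z ^ 210) := by
    apply mul_nonneg _ h1w.le
    exact Finset.sum_nonneg (fun j _ => pow_nonneg hw0 _)
  have hs := sum_res210 hz0 hz1.le
  have hs0 : 0 ≤ 24 * (1 + z ^ 210) := by positivity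
  calc _ ≤ (24 * (1 + z ^ 210)) * ((∑ j ∈ range J, (z ^ 210) ^ j) * (1 - z ^ 210)) :=
        mul_le_mul_of_nonneg_right hs hgeo0
    _ ≤ (24 * (1 + z ^ 210)) * 1 := mul_le_mul_of_nonneg_left hgeo hs0
    _ = _ := by ring

lemma list_sum_filter (f : ℕ → ℝ) (P : ℕ → Bool) (N : ℕ) :
    (((List.range N).filter P).map f).sum = ∑ k ∈ range N, if P k then f k else 0 := by
  induction N with
  | zero => simp
  | succ N ih =>
    rw [List.range_succ, List.filter_append, List.map_append, List.sum_append, ih,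
      Finset.sum_range_succ]
    congr 1
    by_cases h : P N = true
    · rw [List.filter_cons_of_pos h, if_pos h]; simp
    · rw [List.filter_cons_of_neg h, if_neg h]; simp

lemma one_sub_pow_le {y : ℝ} (hy0 : 0 ≤ y) (hy1 : y ≤ 1) (m : ℕ) :
    (1 - y) ^ m ≤ 1 - m * y + m * (m - 1) / 2 * y ^ 2 := by
  induction m with
  | zero => simp
  | succ m ih =>
    rw [pow_succ]
    have h1 : (1 - y) ^ m * (1 - y) ≤ (1 - m * y + m * (m - 1) / 2 * y ^ 2) * (1 - y) :=
      mul_le_mul_of_nonneg_right ih (by linarith)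
    refine h1.trans ?_
    push_cast
    have h2 : 0 ≤ (m : ℝ) * (m - 1) / 2 * y ^ 3 := by
      rcases Nat.eq_zero_or_pos m with h | h
      · subst h; simp
      · have : (1 : ℝ) ≤ m := by exact_mod_cast h
        have : 0 ≤ (m : ℝ) * (m - 1) := by nlinarith
        positivity
    nlinarith

lemma wheel_aux {X y w : ℝ} (hX : 1400 ≤ X) (hXy : X * y = 1) (hy0 : 0 < y) (hy1 : y ≤ 1 / 1400)
    (hw : w ≤ 1 - 210 * y + 21945 * y ^ 2) :
    24 * (1 + w) / (1 - w) ≤ 0.2286 * X + 2 := by
  have hX0 : 0 < X := by linarith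
  have h1w : 210 * y - 21945 * y ^ 2 ≤ 1 - w := by linarith
  have hpos : 0 < 210 * y - 21945 * y ^ 2 := by
    have : 210 * y - 21945 * y ^ 2 = y * (210 - 21945 * y) := by ring
    rw [this]
    apply mul_pos hy0
    linarith
  have h1w0 : 0 < 1 - w := lt_of_lt_of_le hpos h1w
  rw [div_le_iff₀ h1w0]
  -- 24 (1+w) ≤ (0.2286 X + 2)(1-w);  (1+w) = 2 - (1-w)
  have h3 : (0.2286 * X + 26) * (210 * y - 21945 * y ^ 2) ≤ (0.2286 * X + 26) * (1 - w) :=
    mul_le_mul_of_nonneg_left h1w (by positivity)
  have h4 : 48 ≤ (0.2286 * X + 26) * (210 * y - 21945 * y ^ 2) := by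
    have e : (0.2286 * X + 26) * (210 * y - 21945 * y ^ 2) =
      0.2286 * 210 * (X * y) - 0.2286 * 21945 * (X * y) * y + 26 * 210 * y - 26 * 21945 * y ^ 2 := by
      ring
    rw [e, hXy]
    have h5 : y ^ 2 ≤ 1 / 1400 * y := by
      rw [pow_two]; exact mul_le_mul_of_nonneg_right hy1 hy0.le
    have h6 : 26 * 210 * y - 0.2286 * 21945 * 1 * y - 26 * 21945 * y ^ 2 ≥ 0 - 0.02 := by
      norm_num at h5 ⊢
      linarith
    norm_num at h6 ⊢
    linarith
  linarith

lemma wheel_bound {X : ℝ} (hX : 1400 ≤ X) :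
    24 * (1 + (1 - 1 / X) ^ 210) / (1 - (1 - 1 / X) ^ 210) ≤ 0.2286 * X + 2 := by
  have hX0 : 0 < X := by linarith
  have hy0 : 0 < 1 / X := by positivity
  have hy1 : 1 / X ≤ 1 / 1400 := one_div_le_one_div_of_le (by norm_num) hX
  have hXy : X * (1 / X) = 1 := by field_simp
  refine wheel_aux hX hXy hy0 hy1 ((one_sub_pow_le hy0.le (by linarith) 210).trans (le_of_eq ?_))
  norm_num

lemma pow_le_div {X : ℝ} (hX : 2 ≤ X) (k : ℕ) (hk : 1 ≤ k) : (1 - 1 / X) ^ k ≤ X / k := by
  have hX0 : 0 < X := by linarith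
  have hk' : (1 : ℝ) ≤ k := by exact_mod_cast hk
  have h1 : 1 - 1 / X ≤ Real.exp (-(1 / X)) := by
    have := Real.add_one_le_exp (-(1 / X)); linarith
  have h0 : 0 ≤ 1 - 1 / X := by
    have : 1 / X ≤ 1 / 2 := one_div_le_one_div_of_le (by norm_num) hX
    linarith
  have h2 : (1 - 1 / X) ^ k ≤ Real.exp (-(k / X)) := by
    calc (1 - 1 / X) ^ k ≤ (Real.exp (-(1 / X))) ^ k := pow_le_pow_left₀ h0 h1 k
      _ = Real.exp (-(k / X)) := by
        rw [← Real.exp_nat_mul]; congr 1; ring
  have h3 : k / X ≤ Real.exp (k / X) := by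
    have := Real.add_one_le_exp (k / X : ℝ); linarith
  have h4 : Real.exp (-(k / X)) ≤ X / k := by
    rw [Real.exp_neg, inv_le_comm₀ (Real.exp_pos _) (by positivity), inv_div]
    exact h3
  exact h2.trans h4

/-- powers of `p` -/
def pows (p n : ℕ) : List ℕ := (List.range n).map (fun a => p ^ (a + 1))

lemma sum_pows {X : ℝ} (hX : 2 ≤ X) {p : ℕ} (hp : 2 ≤ p) (A n : ℕ) :
    ((pows p n).map (fun q => (1 - 1 / X) ^ q)).sum ≤ A + X / (p ^ A * (p - 1)) := by
  have hX0 : 0 < X := by linarith
  have hp' : (2 : ℝ) ≤ p := by exact_mod_cast hp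
  have hz0 : 0 ≤ 1 - 1 / X := by
    have : 1 / X ≤ 1 / 2 := one_div_le_one_div_of_le (by norm_num) hX
    linarith
  have hz1 : 1 - 1 / X ≤ 1 := by
    have : 0 < 1 / X := by positivity
    linarith
  have e : ((pows p n).map (fun q => (1 - 1 / X) ^ q)).sum =
      ∑ a ∈ range n, (1 - 1 / X) ^ (p ^ (a + 1)) := by
    unfold pows
    rw [List.map_map]
    have := list_sum_filter (fun a => (1 - 1 / X) ^ (p ^ (a + 1))) (fun _ => true) n
    rw [List.filter_true] at this
    simp only [if_true] at this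
    exact this
  rw [e]
  have hpos : 0 < X / (p ^ A * (p - 1)) := by
    apply div_pos hX0
    apply mul_pos (by positivity); linarith
  have hmain : ∀ m, ∑ a ∈ range (A + m), (1 - 1 / X) ^ (p ^ (a + 1)) ≤
      A + X / (p ^ A * (p - 1)) * (1 - 1 / p ^ m) := by
    intro m
    induction m with
    | zero =>
      simp only [pow_zero, div_one, sub_self, mul_zero, add_zero]
      calc _ ≤ ∑ _a ∈ range A, (1 : ℝ) := Finset.sum_le_sum (fun a _ => pow_le_one₀ hz0 hz1)
        _ = A := by simp
    | succ m ih =>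
      rw [← Nat.add_assoc, Finset.sum_range_succ]
      have h1 := pow_le_div hX (p ^ (A + m + 1)) (Nat.one_le_pow _ _ (by omega))
      have h2 : X / ((p ^ (A + m + 1) : ℕ) : ℝ) = X / (p ^ A * (p - 1)) * (1 - 1 / p ^ (m + 1)) -
          X / (p ^ A * (p - 1)) * (1 - 1 / p ^ m) := by
        push_cast
        have : (p : ℝ) - 1 ≠ 0 := by linarith
        have h0 : (p : ℝ) ≠ 0 := by linarith
        field_simp
        ring
      rw [h2] at h1
      linarith
  rcases le_or_gt n A with h | h
  · calc _ ≤ ∑ _a ∈ range n, (1 : ℝ) := Finset.sum_le_sum (fun a _ => pow_le_one₀ hz0 hz1)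
      _ = n := by simp
      _ ≤ A := by exact_mod_cast h
      _ ≤ _ := by linarith
  · obtain ⟨m, rfl⟩ := Nat.exists_eq_add_of_lt h
    have := hmain (m + 1)
    rw [← Nat.add_assoc] at this
    refine this.trans ?_
    have h3 : 0 ≤ 1 / (p : ℝ) ^ (m + 1) := by positivity
    nlinarith

theorem large_case (n : ℕ) (hn : 500000 ≤ n) :
    ((Set.range (fun σ : Equiv.Perm (Fin n) => orderOf σ)).ncard : ℝ) ≤
      Real.exp (Real.sqrt n) := by
  have hsq : (707 : ℝ) ≤ Real.sqrt n := by
    apply Real.le_sqrt_of_sq_le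
    have : (500000 : ℝ) ≤ n := by exact_mod_cast hn
    norm_num; linarith
  have hsqn : Real.sqrt n * Real.sqrt n = n := Real.mul_self_sqrt (Nat.cast_nonneg n)
  set s := Real.sqrt n with hs
  obtain ⟨X, hX1, hX2⟩ : ∃ X : ℝ, 2 * s + 1 ≤ X ∧ X ≤ 2 * s + 1 := ⟨2 * s + 1, le_rfl, le_rfl⟩
  have hX : 1400 ≤ X := by linarith
  have hX0 : 0 < X := by linarith
  have hz0 : 0 < 1 - 1 / X := by
    have : 1 / X < 1 := by rw [div_lt_one hX0]; linarith
    linarith
  have hz1 : 1 - 1 / X < 1 := by
    have : 0 < 1 / X := by positivity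
    linarith
  set z := 1 - 1 / X with hz
  set L := (List.range (n + 1)).filter (fun k => Nat.ble 2 k && Nat.beq (Nat.gcd k 210) 1) ++
    (pows 2 n ++ pows 3 n ++ pows 5 n ++ pows 7 n) with hL
  have hexcl : ∀ g ∈ L.map (fun k => [k]), Excl g := by
    intro g hg
    rw [List.mem_map] at hg
    obtain ⟨k, hk, rfl⟩ := hg
    apply excl_single
    have hpw : ∀ p, 2 ≤ p → k ∈ pows p n → 2 ≤ k := by
      intro p hp hk
      unfold pows at hk
      rw [List.mem_map] at hk
      obtain ⟨a, _, rfl⟩ := hk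
      calc 2 ≤ p := hp
        _ ≤ p ^ (a + 1) := Nat.le_self_pow (by omega) p
    rw [hL, List.mem_append, List.mem_append, List.mem_append, List.mem_append] at hk
    rcases hk with hk | ((hk | hk) | hk) | hk
    · rw [List.mem_filter, Bool.and_eq_true, Nat.ble_eq] at hk
      exact hk.2.1
    · exact hpw 2 (by norm_num) hk
    · exact hpw 3 (by norm_num) hk
    · exact hpw 5 (by norm_num) hk
    · exact hpw 7 (by norm_num) hk
  have hcomp : ∀ p a, p.Prime → 1 ≤ a → p ^ a ≤ n → ∃ g ∈ L.map (fun k => [k]), p ^ a ∈ g := by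
    intro p a hp ha hpa
    refine ⟨[p ^ a], ?_, by simp⟩
    rw [List.mem_map]
    refine ⟨p ^ a, ?_, rfl⟩
    rw [hL, List.mem_append, List.mem_append, List.mem_append, List.mem_append]
    by_cases h : p ∣ 210
    · right
      have hmem : p ^ a ∈ pows p n := by
        unfold pows
        rw [List.mem_map]
        refine ⟨a - 1, ?_, by congr 1; omega⟩
        rw [List.mem_range]
        have : a < p ^ a := Nat.lt_pow_self hp.one_lt
        omega
      have hp' : p = 2 ∨ p = 3 ∨ p = 5 ∨ p = 7 := by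
        rw [show (210 : ℕ) = 2 * 3 * 5 * 7 by norm_num] at h
        rcases (hp.dvd_mul).mp h with h | h
        · rcases (hp.dvd_mul).mp h with h | h
          · rcases (hp.dvd_mul).mp h with h | h
            · left; exact (Nat.prime_dvd_prime_iff_eq hp (by norm_num)).mp h
            · right; left; exact (Nat.prime_dvd_prime_iff_eq hp (by norm_num)).mp h
          · right; right; left; exact (Nat.prime_dvd_prime_iff_eq hp (by norm_num)).mp h
        · right; right; right; exact (Nat.prime_dvd_prime_iff_eq hp (by norm_num)).mp h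
      rcases hp' with rfl | rfl | rfl | rfl
      · left; left; left; exact hmem
      · left; left; right; exact hmem
      · left; right; exact hmem
      · right; exact hmem
    · left
      rw [List.mem_filter, List.mem_range, Bool.and_eq_true, Nat.ble_eq, Nat.beq_eq]
      refine ⟨by omega, ?_, ?_⟩
      · calc 2 ≤ p := hp.two_le
          _ ≤ p ^ a := Nat.le_self_pow (by omega) p
      · exact Nat.Coprime.pow_left a ((Nat.Prime.coprime_iff_not_dvd hp).mpr h)
  have hW := ncard_orders_le n n le_rfl _ hexcl hcomp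
  have hR := rankin z hz0.le hz1.le (L.map (fun k => [k])) n
  have e1 : ((L.map (fun k => [k])).map (fun g => 1 + (g.map (fun q => z ^ q)).sum)).prod =
      (L.map (fun k => 1 + z ^ k)).prod := by
    rw [List.map_map]
    congr 1
    apply List.map_congr_left
    intro k _
    simp
  rw [e1] at hR
  have hR2 := hR.trans (prod_le_exp_sum z hz0.le L)
  -- bound the sum
  have hsum : (L.map (fun k => z ^ k)).sum ≤ 0.23213 * X + 24 := by
    rw [hL, List.map_append, List.sum_append, List.map_append, List.sum_append, List.map_append,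
      List.sum_append, List.map_append, List.sum_append]
    have hXX : 2 ≤ X := by linarith
    have b2 := sum_pows hXX (le_refl 2) 9 n
    have b3 := sum_pows hXX (show 2 ≤ 3 by norm_num) 6 n
    have b5 := sum_pows hXX (show 2 ≤ 5 by norm_num) 4 n
    have b7 := sum_pows hXX (show 2 ≤ 7 by norm_num) 3 n
    have b1 : (((List.range (n + 1)).filter
        (fun k => Nat.ble 2 k && Nat.beq (Nat.gcd k 210) 1)).map (fun k => z ^ k)).sum ≤
        0.2286 * X + 2 := by
      rw [list_sum_filter]
      have h1 : ∑ k ∈ range (n + 1), (if (Nat.ble 2 k && Nat.beq (Nat.gcd k 210) 1) = true then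
          z ^ k else 0) ≤ ∑ k ∈ range (210 * (n + 1)), (if Nat.Coprime k 210 then z ^ k else 0) := by
        calc _ ≤ ∑ k ∈ range (n + 1), (if Nat.Coprime k 210 then z ^ k else 0) := by
              apply Finset.sum_le_sum
              intro k _
              by_cases hc : Nat.Coprime k 210
              · rw [if_pos hc]
                split_ifs
                · exact le_rfl
                · positivity
              · rw [if_neg hc, if_neg]
                rw [Bool.and_eq_true, Nat.beq_eq]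
                exact fun h => hc h.2
          _ ≤ _ := by
            apply Finset.sum_le_sum_of_subset_of_nonneg
            · intro k hk
              rw [mem_range] at hk ⊢
              omega
            · intro k _ _
              split_ifs
              · positivity
              · exact le_rfl
      exact h1.trans ((sum_coprime hz0.le hz1 _).trans (wheel_bound hX))
    rw [← hz] at b2 b3 b5 b7
    norm_num at b2 b3 b5 b7
    linarith
  have hzinv : (1 : ℝ) ≤ Real.exp (s / 2) * z ^ n := by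
    have h3 : 1 ≤ Real.exp (1 / (X - 1)) * z := by
      have h4 := Real.add_one_le_exp (1 / (X - 1))
      have h5 : (1 / (X - 1) + 1) * z = 1 := by
        rw [hz]
        have : X - 1 ≠ 0 := by linarith
        field_simp
        ring
      calc (1 : ℝ) = (1 / (X - 1) + 1) * z := h5.symm
        _ ≤ _ := mul_le_mul_of_nonneg_right h4 hz0.le
    have h6 : Real.exp (n * (1 / (X - 1))) ≤ Real.exp (s / 2) := by
      apply Real.exp_le_exp.mpr
      have : 0 < X - 1 := by linarith
      rw [mul_one_div, div_le_iff₀ this, ← hsqn]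
      nlinarith
    calc (1 : ℝ) ≤ (Real.exp (1 / (X - 1)) * z) ^ n := one_le_pow₀ h3
      _ = Real.exp (n * (1 / (X - 1))) * z ^ n := by rw [mul_pow, Real.exp_nat_mul]
      _ ≤ _ := mul_le_mul_of_nonneg_right h6 (pow_nonneg hz0.le _)
  have hc0 : (0 : ℝ) ≤ cntG (L.map (fun k => [k])) n := Nat.cast_nonneg _
  calc _ ≤ (cntG (L.map (fun k => [k])) n : ℝ) := by exact_mod_cast hW
    _ = cntG (L.map (fun k => [k])) n * 1 := by ring
    _ ≤ cntG (L.map (fun k => [k])) n * (Real.exp (s / 2) * z ^ n) :=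
      mul_le_mul_of_nonneg_left hzinv hc0
    _ = Real.exp (s / 2) * (cntG (L.map (fun k => [k])) n * z ^ n) := by ring
    _ ≤ Real.exp (s / 2) * Real.exp (L.map (fun k => z ^ k)).sum :=
      mul_le_mul_of_nonneg_left hR2 (Real.exp_pos _).le
    _ = Real.exp (s / 2 + (L.map (fun k => z ^ k)).sum) := by rw [Real.exp_add]
    _ ≤ Real.exp s := by
      apply Real.exp_le_exp.mpr
      nlinarith

end Pool.Agent.Lib.MP_bcad5b_nt
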