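import Mathlib
import Pool.Agent.Lib.MP_bcad5b_nt.Mid

set_option autoImplicit false

namespace Pool.Agent.Lib.MP_bcad5b_nt

set_option maxRecDepth 1000000 in
theorem seg0 : segOK 1000 1022 76 532 576 = true := by decide +kernel

set_option maxRecDepth 1000000 in
theorem seg1 : segOK 1022 1050 77 539 581 = true := by decide +kernel

set_option maxRecDepth 1000000 in
theorem seg2 : segOK 1050 1083 78 546 587 = true := by decide +kernel

set_option maxRecDepth 1000000 in
theorem seg3 : segOK 1083 1125 81 567 603 = true := by decide +kernel

set_option maxRecDepth 1000000 in
theorem seg4 : segOK 1125 1174 80 560 598 = true := by decide +kernel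

set_option maxRecDepth 1000000 in
theorem seg5 : segOK 1174 1234 82 574 609 = true := by decide +kernel

set_option maxRecDepth 1000000 in
theorem seg6 : segOK 1234 1309 87 609 637 = true := by decide +kernel

set_option maxRecDepth 1000000 in
theorem seg7 : segOK 1309 1403 90 630 653 = true := by decide +kernel

set_option maxRecDepth 1000000 in
theorem seg8 : segOK 1403 1523 96 672 685 = true := by decide +kernel

set_option maxRecDepth 1000000 in
theorem seg9 : segOK 1523 1676 99 693 701 = true := by decide +kernel

set_option maxRecDepth 1000000 in
theorem seg10 : segOK 1676 1873 105 735 733 = true := by decide +kernel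

set_option maxRecDepth 1000000 in
theorem seg11 : segOK 1873 2134 117 819 795 = true := by decide +kernel

set_option maxRecDepth 1000000 in
theorem seg12 : segOK 2134 2484 125 875 836 = true := by decide +kernel

set_option maxRecDepth 1000000 in
theorem seg13 : segOK 2484 2963 139 973 906 = true := by decide +kernel

set_option maxRecDepth 1000000 in
theorem seg14 : segOK 2963 3632 152 1064 970 = true := by decide +kernel

set_option maxRecDepth 1000000 in
theorem seg15 : segOK 3632 4596 177 1239 1090 = true := by decide +kernel

set_option maxRecDepth 1000000 in
theorem seg16 : segOK 4596 6024 204 1428 1216 = true := by decide +kernel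

set_option maxRecDepth 1000000 in
theorem seg17 : segOK 6024 8210 239 1673 1375 = true := by decide +kernel

set_option maxRecDepth 1000000 in
theorem seg18 : segOK 8210 11684 294 2058 1617 = true := by decide +kernel

set_option maxRecDepth 1000000 in
theorem seg19 : segOK 11684 17423 358 2506 1889 = true := by decide +kernel

set_option maxRecDepth 1000000 in
theorem seg20 : segOK 17423 27295 448 3136 2259 = true := by decide +kernel

set_option maxRecDepth 1000000 in
theorem seg21 : segOK 27295 44918 561 3927 2706 = true := by decide +kernel

set_option maxRecDepth 1000000 in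
theorem seg22 : segOK 44918 77506 720 5040 3314 = true := by decide +kernel

set_option maxRecDepth 1000000 in
theorem seg23 : segOK 77506 139971 946 6622 4144 = true := by decide +kernel

set_option maxRecDepth 1000000 in
theorem seg24 : segOK 139971 263798 1272 8904 5296 = true := by decide +kernel

set_option maxRecDepth 1000000 in
theorem seg25 : segOK 263798 517255 1746 12222 6902 = true := by decide +kernel

theorem mid_case (n : ℕ) (h1 : 1000 ≤ n) (h2 : n ≤ 517255) :
    ((Set.range (fun σ : Equiv.Perm (Fin n) => orderOf σ)).ncard : ℝ) ≤
      Real.exp (Real.sqrt n) := by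
  rcases le_or_gt n 1022 with h | h
  · exact seg_case seg0 n (by omega) h
  rcases le_or_gt n 1050 with h | h
  · exact seg_case seg1 n (by omega) h
  rcases le_or_gt n 1083 with h | h
  · exact seg_case seg2 n (by omega) h
  rcases le_or_gt n 1125 with h | h
  · exact seg_case seg3 n (by omega) h
  rcases le_or_gt n 1174 with h | h
  · exact seg_case seg4 n (by omega) h
  rcases le_or_gt n 1234 with h | h
  · exact seg_case seg5 n (by omega) h
  rcases le_or_gt n 1309 with h | h
  · exact seg_case seg6 n (by omega) h
  rcases le_or_gt n 1403 with h | h
  · exact seg_case seg7 n (by omega) h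
  rcases le_or_gt n 1523 with h | h
  · exact seg_case seg8 n (by omega) h
  rcases le_or_gt n 1676 with h | h
  · exact seg_case seg9 n (by omega) h
  rcases le_or_gt n 1873 with h | h
  · exact seg_case seg10 n (by omega) h
  rcases le_or_gt n 2134 with h | h
  · exact seg_case seg11 n (by omega) h
  rcases le_or_gt n 2484 with h | h
  · exact seg_case seg12 n (by omega) h
  rcases le_or_gt n 2963 with h | h
  · exact seg_case seg13 n (by omega) h
  rcases le_or_gt n 3632 with h | h
  · exact seg_case seg14 n (by omega) h
  rcases le_or_gt n 4596 with h | h
  · exact seg_case seg15 n (by omega) h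
  rcases le_or_gt n 6024 with h | h
  · exact seg_case seg16 n (by omega) h
  rcases le_or_gt n 8210 with h | h
  · exact seg_case seg17 n (by omega) h
  rcases le_or_gt n 11684 with h | h
  · exact seg_case seg18 n (by omega) h
  rcases le_or_gt n 17423 with h | h
  · exact seg_case seg19 n (by omega) h
  rcases le_or_gt n 27295 with h | h
  · exact seg_case seg20 n (by omega) h
  rcases le_or_gt n 44918 with h | h
  · exact seg_case seg21 n (by omega) h
  rcases le_or_gt n 77506 with h | h
  · exact seg_case seg22 n (by omega) h
  rcases le_or_gt n 139971 with h | h
  · exact seg_case seg23 n (by omega) h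
  rcases le_or_gt n 263798 with h | h
  · exact seg_case seg24 n (by omega) h
  exact seg_case seg25 n (by omega) h2

end Pool.Agent.Lib.MP_bcad5b_nt
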